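import Mathlib
import Pool.Agent.Q108.SignDisc
import Pool.Agent.Q108.FDomGraph
import Pool.Agent.Q130.SA.Packing2

set_option autoImplicit false

/-!
# MP_cc2bbb_co: the fractional domatic number of graphs of minimum degree 2 and large girth

The infimum of the fractional domatic number over the graphs with minimum degree 2 and girth at
least `g` is at most `5/2` for every `g`. Hence `L ≤ 5/2`; with the lower bound `5/2` known from the
literature this gives `L = 5/2`.
-/

namespace Pool.Agent.Results.MP_cc2bbb_co.AtMostFiveHalves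

open SimpleGraph Finset

/-- `φ` is a dominating `(a:b)`-colouring of `G`: every vertex gets `b` colours, and for every
colour `i` the set of the vertices with colour `i` is dominating. -/
def IsDomColouring {V : Type} (G : SimpleGraph V) (a b : ℕ) (φ : V → Finset (Fin a)) : Prop :=
  (∀ v, (φ v).card = b) ∧ ∀ (i : Fin a) (v : V), i ∈ φ v ∨ ∃ w, G.Adj v w ∧ i ∈ φ w

/-- The fractional domatic number. -/
noncomputable def fdom {V : Type} (G : SimpleGraph V) : ℝ :=
  sSup {x : ℝ | ∃ a b : ℕ, 1 ≤ b ∧ b ≤ a ∧ (∃ φ : V → Finset (Fin a), IsDomColouring G a b φ) ∧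
    x = (a : ℝ) / b}

/-- `δ(G) = 2`. -/
def MinDegreeTwo {V : Type} (G : SimpleGraph V) : Prop :=
  (∀ v, 2 ≤ (G.neighborSet v).ncard) ∧ ∃ v, (G.neighborSet v).ncard = 2

/-- The infimum of the fractional domatic number over all finite graphs with minimum degree 2 and
girth at least `g`. -/
noncomputable def fdomInf (g : ℕ) : ℝ :=
  sInf {x : ℝ | ∃ (V : Type) (_ : Fintype V) (G : SimpleGraph V), MinDegreeTwo G ∧
    (g : ℕ∞) ≤ G.egirth ∧ x = fdom G}

section main
open Pool.Agent.Q108.FDomGraph Pool.Agent.Q108.SignDisc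

variable {n : ℕ} {G : SimpleGraph (Fin n)} {σ : Sym2 (Fin n) → Bool}

/-- colours along a path of length 3 -/
lemma colour_true {a b : ℕ} {φ : Fin n ⊕ Mid G σ → Finset (Fin a)}
    (hφ : IsDomColouring (sub G σ) a b φ) {u v : Fin n} (huv : G.Adj u v)
    (hs : σ s(u, v) = true) : a ≤ 2 * b + (φ (.inl u) ∩ φ (.inl v)).card := by
  classical
  obtain ⟨hb, hd⟩ := hφ
  have hs' : σ s(v, u) = true := by rw [Sym2.eq_swap]; exact hs
  set p : Mid G σ := ⟨(u, v), huv, Or.inl hs⟩ with hp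
  set q : Mid G σ := ⟨(v, u), huv.symm, Or.inl hs'⟩ with hq
  have hcov : (Finset.univ : Finset (Fin a)) ⊆
      (φ (.inr p) ∪ φ (.inr q)) ∪ (φ (.inl u) ∩ φ (.inl v)) := by
    intro i _
    by_cases hi : i ∈ φ (.inr p) ∪ φ (.inr q)
    · exact Finset.mem_union_left _ hi
    · rw [Finset.mem_union, not_or] at hi
      refine Finset.mem_union_right _ (Finset.mem_inter.2 ⟨?_, ?_⟩)
      · rcases hd i (.inr p) with h | ⟨w, hw, hiw⟩
        · exact absurd h hi.1
        · rcases w with x | r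
          · rcases hw with hw | ⟨hw, -⟩
            · rw [hw] at hiw; exact hiw
            · simp only [hp] at hw; rw [hs] at hw; exact absurd hw (by simp)
          · obtain ⟨-, hr⟩ := hw
            have : r = q := Subtype.ext (by rw [hr]; rfl)
            rw [this] at hiw
            exact absurd hiw hi.2
      · rcases hd i (.inr q) with h | ⟨w, hw, hiw⟩
        · exact absurd h hi.2
        · rcases w with x | r
          · rcases hw with hw | ⟨hw, -⟩
            · rw [hw] at hiw; exact hiw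
            · simp only [hq] at hw; rw [hs'] at hw; exact absurd hw (by simp)
          · obtain ⟨-, hr⟩ := hw
            have : r = p := Subtype.ext (by rw [hr]; rfl)
            rw [this] at hiw
            exact absurd hiw hi.1
  have h1 := Finset.card_le_card hcov
  rw [Finset.card_univ, Fintype.card_fin] at h1
  have h2 := Finset.card_union_le (φ (.inr p) ∪ φ (.inr q)) (φ (.inl u) ∩ φ (.inl v))
  have h3 := Finset.card_union_le (φ (.inr p)) (φ (.inr q))
  rw [hb, hb] at h3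
  omega

/-- colours along a path of length 2 -/
lemma colour_false {a b : ℕ} {φ : Fin n ⊕ Mid G σ → Finset (Fin a)}
    (hφ : IsDomColouring (sub G σ) a b φ) {u v : Fin n} (huv : G.Adj u v)
    (hs : σ s(u, v) = false) : a + (φ (.inl u) ∩ φ (.inl v)).card ≤ 3 * b := by
  classical
  obtain ⟨hb, hd⟩ := hφ
  obtain ⟨p, -, hpe⟩ := exists_mid (σ := σ) huv
  have hsp : σ s(p.1.1, p.1.2) = false := by rw [hpe]; exact hs
  have hcov : (Finset.univ : Finset (Fin a)) ⊆
      φ (.inr p) ∪ (φ (.inl p.1.1) ∪ φ (.inl p.1.2)) := by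
    intro i _
    rcases hd i (.inr p) with h | ⟨w, hw, hiw⟩
    · exact Finset.mem_union_left _ h
    · refine Finset.mem_union_right _ ?_
      rcases w with x | r
      · rcases hw with hw | ⟨-, hw⟩
        · rw [hw] at hiw; exact Finset.mem_union_left _ hiw
        · rw [hw] at hiw; exact Finset.mem_union_right _ hiw
      · obtain ⟨hr, -⟩ := hw
        rw [hsp] at hr; exact absurd hr (by simp)
  have h1 := Finset.card_le_card hcov
  rw [Finset.card_univ, Fintype.card_fin] at h1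
  have h2 := Finset.card_union_le (φ (.inr p)) (φ (.inl p.1.1) ∪ φ (.inl p.1.2))
  have h3 := Finset.card_union_add_card_inter (φ (.inl p.1.1)) (φ (.inl p.1.2))
  rw [hb, hb] at h3
  rw [hb] at h2
  have h4 : φ (.inl u) ∩ φ (.inl v) = φ (.inl p.1.1) ∩ φ (.inl p.1.2) := by
    rcases Sym2.eq_iff.1 hpe with ⟨e1, e2⟩ | ⟨e1, e2⟩
    · rw [e1, e2]
    · rw [e1, e2, Finset.inter_comm]
  rw [h4]
  omega

/-- the extension of signs to all unordered pairs -/
noncomputable def ext (G : SimpleGraph (Fin n)) (τ : G.edgeSet → Bool) (e : Sym2 (Fin n)) : Bool :=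
  open Classical in if h : e ∈ G.edgeSet then τ ⟨e, h⟩ else false

lemma ext_edge (G : SimpleGraph (Fin n)) (τ : G.edgeSet → Bool) (e : G.edgeSet) :
    ext G τ e.1 = τ e := by
  unfold ext
  rw [dif_pos e.2]

/-- the edges inside a set -/
noncomputable def inside (G : SimpleGraph (Fin n)) [Fintype G.edgeSet] (S : Finset (Fin n)) :
    Finset G.edgeSet :=
  open Classical in Finset.univ.filter (fun e => ∀ x ∈ e.1, x ∈ S)

theorem key (G : SimpleGraph (Fin n)) [Fintype G.edgeSet] [DecidableEq G.edgeSet]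
    (τ : G.edgeSet → Bool) (Δ : ℝ)
    (hΔ : ∀ S, |disc τ (inside G S)| ≤ Δ) {a b : ℕ} {φ : Fin n ⊕ Mid G (ext G τ) → Finset (Fin a)}
    (hφ : IsDomColouring (sub G (ext G τ)) a b φ) :
    (2 * (a : ℝ) - 5 * b) * Fintype.card G.edgeSet ≤ (2 * a + b) * Δ := by
  classical
  -- the common colours of an edge
  let r : G.edgeSet → Finset (Fin a) := fun e => Finset.univ.filter (fun i => ∀ x ∈ e.1, i ∈ φ (.inl x))
  have hr : ∀ e : G.edgeSet, (2 * (a : ℝ) - 5 * b) / 2 + sg (τ e) * (b / 2) ≤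
      sg (τ e) * ((r e).card : ℝ) := by
    rintro ⟨e, he⟩
    induction e with
    | h u v =>
    have hrr : r ⟨s(u, v), he⟩ = φ (.inl u) ∩ φ (.inl v) := by
      ext i
      simp [r]
    rw [hrr]
    have hτ := ext_edge G τ ⟨s(u, v), he⟩
    by_cases hs : τ ⟨s(u, v), he⟩ = true
    · have h1 := colour_true hφ he (by rw [hτ]; exact hs)
      rw [hs]
      have h2 : (a : ℝ) ≤ 2 * b + ((φ (.inl u) ∩ φ (.inl v)).card : ℝ) := by exact_mod_cast h1
      simp only [sg, if_true]
      linarith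
    · have hs' : τ ⟨s(u, v), he⟩ = false := by simpa using hs
      have h1 := colour_false hφ he (by rw [hτ]; exact hs')
      rw [hs']
      have h2 : (a : ℝ) + ((φ (.inl u) ∩ φ (.inl v)).card : ℝ) ≤ 3 * b := by exact_mod_cast h1
      simp only [sg]
      norm_num
      linarith
  let S : Fin a → Finset (Fin n) := fun i => Finset.univ.filter (fun v => i ∈ φ (.inl v))
  have hsum : ∑ i : Fin a, disc τ (inside G (S i)) = ∑ e : G.edgeSet, sg (τ e) * ((r e).card : ℝ) := by
    have h1 : ∀ i : Fin a, disc τ (inside G (S i)) =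
        ∑ e : G.edgeSet, (if i ∈ r e then sg (τ e) else 0) := by
      intro i
      rw [disc, inside, Finset.sum_filter]
      refine Finset.sum_congr rfl (fun e _ => ?_)
      simp [r, S]
    simp_rw [h1]
    rw [Finset.sum_comm]
    refine Finset.sum_congr rfl (fun e _ => ?_)
    rw [Finset.sum_ite_mem, Finset.univ_inter, Finset.sum_const, nsmul_eq_mul, mul_comm]
  have hup : ∑ i : Fin a, disc τ (inside G (S i)) ≤ a * Δ := by
    calc ∑ i : Fin a, disc τ (inside G (S i)) ≤ ∑ i : Fin a, Δ :=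
          Finset.sum_le_sum (fun i _ => (le_abs_self _).trans (hΔ _))
      _ = a * Δ := by rw [Finset.sum_const, Finset.card_univ, Fintype.card_fin, nsmul_eq_mul]
  have hlow : (2 * (a : ℝ) - 5 * b) / 2 * Fintype.card G.edgeSet + (b / 2) * disc τ (inside G Finset.univ) ≤
      ∑ e : G.edgeSet, sg (τ e) * ((r e).card : ℝ) := by
    refine le_trans (le_of_eq ?_) (Finset.sum_le_sum (fun e _ => hr e))
    rw [Finset.sum_add_distrib, Finset.sum_const, Finset.card_univ, nsmul_eq_mul, ← Finset.sum_mul]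
    have : inside G Finset.univ = Finset.univ := by
      ext e; simp [inside]
    rw [this, disc]
    ring
  have hd := (abs_le.1 (hΔ Finset.univ)).1
  have hb0 : (0 : ℝ) ≤ b := Nat.cast_nonneg b
  have h5 : (b / 2 : ℝ) * (-Δ) ≤ (b / 2) * disc τ (inside G Finset.univ) :=
    mul_le_mul_of_nonneg_left hd (by positivity)
  rw [hsum] at hup
  nlinarith

end main

section asm
open Pool.Agent.Q108.FDomGraph Pool.Agent.Q108.SignDisc

/-- the base graph -/
lemma exists_base (k g : ℕ) (hk : 2 ≤ k) : ∃ n, 3 ≤ n ∧ ∃ G : SimpleGraph (Fin n),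
    (g : ℕ∞) ≤ G.egirth ∧ (∀ x, ∃ y1 y2, G.Adj x y1 ∧ G.Adj x y2 ∧ y1 ≠ y2) ∧
    ∀ [Fintype G.edgeSet], k * (n - 1) ≤ Fintype.card G.edgeSet := by
  classical
  obtain ⟨n, hn, F, hT, hdis, hg⟩ := Q130.SA.exists_packing k g
  refine ⟨n, hn, ⨆ i, F i, hg, ?_, ?_⟩
  · intro x
    have hdeg : ∀ i, ∃ y, (F i).Adj x y := by
      intro i
      have : Nontrivial (Fin n) := Fin.nontrivial_iff_two_le.2 (by omega)
      obtain ⟨z, hz⟩ : ∃ z : Fin n, z ≠ x := exists_ne x
      obtain ⟨w⟩ := (hT i).connected.preconnected x z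
      cases w with
      | nil => exact absurd rfl hz
      | cons h _ => exact ⟨_, h⟩
    obtain ⟨y1, h1⟩ := hdeg ⟨0, by omega⟩
    obtain ⟨y2, h2⟩ := hdeg ⟨1, by omega⟩
    refine ⟨y1, y2, ?_, ?_, ?_⟩
    · rw [iSup_adj]; exact ⟨_, h1⟩
    · rw [iSup_adj]; exact ⟨_, h2⟩
    · rintro rfl
      have := hdis ⟨0, by omega⟩ ⟨1, by omega⟩ (by simp)
      rw [← disjoint_edgeSet] at this
      exact Set.disjoint_left.1 this (show s(x, y1) ∈ _ from h1) h2
  · intro _
    have h1 : (Finset.univ.biUnion (fun i => (F i).edgeFinset)).card = k * (n - 1) := by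
      rw [Finset.card_biUnion]
      · have : ∀ i, (F i).edgeFinset.card = n - 1 := by
          intro i
          have := (hT i).card_edgeFinset
          rw [Fintype.card_fin] at this
          omega
        rw [Finset.sum_congr rfl (fun i _ => this i), Finset.sum_const, Finset.card_univ,
          Fintype.card_fin, smul_eq_mul]
      · intro i _ j _ hij
        have := hdis i j hij
        exact disjoint_edgeFinset.2 this
    rw [← h1, ← edgeFinset_card]
    refine Finset.card_le_card ?_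
    intro e he
    rw [Finset.mem_biUnion] at he
    obtain ⟨i, -, hi⟩ := he
    rw [mem_edgeFinset] at hi ⊢
    exact edgeSet_mono (le_iSup F i) hi

theorem main (g : ℕ) (ε : ℝ) (hε : 0 < ε) : ∃ (V : Type) (_ : Fintype V) (G : SimpleGraph V),
    MinDegreeTwo G ∧ (g : ℕ∞) ≤ G.egirth ∧
    ∀ a b : ℕ, 1 ≤ b → (∃ φ : V → Finset (Fin a), IsDomColouring G a b φ) →
      (a : ℝ) / b ≤ 5 / 2 + ε := by
  classical
  set δ : ℝ := min ε 1 / 10 with hδ
  have hm1 : min ε 1 ≤ 1 := min_le_right _ _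
  have hm2 : min ε 1 ≤ ε := min_le_left _ _
  have hm0 : 0 < min ε 1 := lt_min hε one_pos
  have hδ0 : 0 < δ := by positivity
  obtain ⟨k, hk⟩ := exists_nat_ge (4 / δ ^ 2)
  obtain ⟨n, hn, G, hg, hdeg, hcard⟩ := exists_base (max k 2) g (le_max_right _ _)
  have hcard' := @hcard inferInstance
  obtain ⟨τ, hτ⟩ := exists_sign (E := G.edgeSet) (ι := Finset (Fin n)) (inside G) δ hδ0
  set Δ : ℝ := Real.log (2 * Fintype.card (Finset (Fin n))) / δ + δ * Fintype.card G.edgeSet / 2
    with hΔ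
  set m : ℝ := (Fintype.card G.edgeSet : ℝ) with hm
  have hn' : (3 : ℝ) ≤ n := by exact_mod_cast hn
  have hmk : 4 / δ ^ 2 * (n - 1) ≤ m := by
    have h1 : ((max k 2 * (n - 1) : ℕ) : ℝ) ≤ m := by rw [hm]; exact_mod_cast hcard'
    rw [Nat.cast_mul, Nat.cast_sub (by omega)] at h1
    refine le_trans ?_ h1
    have h2 : (k : ℝ) ≤ ((max k 2 : ℕ) : ℝ) := by exact_mod_cast le_max_left _ _
    push_cast at h2 ⊢
    have h3 : (0 : ℝ) ≤ (n : ℝ) - 1 := by linarith
    exact mul_le_mul_of_nonneg_right (hk.trans h2) h3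
  have hmpos : 0 < m := by
    refine lt_of_lt_of_le ?_ hmk
    have : (0 : ℝ) < (n : ℝ) - 1 := by linarith
    positivity
  have hlog : Real.log (2 * Fintype.card (Finset (Fin n))) ≤ 2 * (n - 1) := by
    rw [Fintype.card_finset, Fintype.card_fin]
    push_cast
    rw [Real.log_mul (by norm_num) (by positivity), Real.log_pow]
    have := Real.log_two_lt_d9
    nlinarith
  have hΔm : Δ ≤ δ * m := by
    have h1 : Real.log (2 * Fintype.card (Finset (Fin n))) / δ ≤ δ * m / 2 := by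
      rw [div_le_iff₀ hδ0]
      have h2 : 4 / δ ^ 2 * (n - 1) * (δ ^ 2 / 2) ≤ m * (δ ^ 2 / 2) :=
        mul_le_mul_of_nonneg_right hmk (by positivity)
      have h3 : 4 / δ ^ 2 * (n - 1) * (δ ^ 2 / 2) = 2 * (n - 1 : ℝ) := by
        field_simp
        ring
      nlinarith
    rw [hΔ]
    linarith
  refine ⟨Fin n ⊕ Mid G (ext G τ), Fintype.ofFinite _, sub G (ext G τ), ⟨?_, ?_⟩, girth_sub g hg, ?_⟩
  · rintro (x | p)
    · obtain ⟨y1, y2, h1, h2, h3⟩ := hdeg x
      exact deg_branch h1 h2 h3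
    · rw [deg_mid]
  · obtain ⟨y1, y2, h1, h2, h3⟩ := hdeg ⟨0, by omega⟩
    obtain ⟨p, -, -⟩ := exists_mid (σ := ext G τ) h1
    exact ⟨.inr p, deg_mid p⟩
  · rintro a b hb ⟨φ, hφ⟩
    have h1 := key G τ Δ hτ hφ
    have hb' : (0 : ℝ) < b := by exact_mod_cast hb
    have ha' : (0 : ℝ) ≤ a := Nat.cast_nonneg a
    have h2 : (2 * (a : ℝ) + b) * Δ ≤ (2 * a + b) * (δ * m) :=
      mul_le_mul_of_nonneg_left hΔm (by positivity)
    have h3 : (2 * (a : ℝ) - 5 * b) * m ≤ ((2 * a + b) * δ) * m := by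
      calc (2 * (a : ℝ) - 5 * b) * m ≤ (2 * a + b) * (δ * m) := h1.trans h2
        _ = _ := by ring
    have h4 := le_of_mul_le_mul_right h3 hmpos
    rw [div_le_iff₀ hb']
    have hδ1 : δ ≤ ε / 10 := by rw [hδ]; linarith
    have hδ2 : δ ≤ 1 / 10 := by rw [hδ]; linarith
    -- 2a(1-δ) ≤ b(5+δ)
    have h5 : 2 * (a : ℝ) * (1 - δ) ≤ b * (5 + δ) := by linarith
    have h6 : b * (5 + δ) ≤ 2 * ((5 / 2 + ε) * b) * (1 - δ) := by
      have : (5 + δ) ≤ 2 * (5 / 2 + ε) * (1 - δ) := by nlinarith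
      nlinarith
    have h7 : 2 * (a : ℝ) * (1 - δ) ≤ 2 * ((5 / 2 + ε) * b) * (1 - δ) := h5.trans h6
    have h8 := le_of_mul_le_mul_right h7 (by linarith)
    linarith

end asm

lemma fdom_nonneg {V : Type} (G : SimpleGraph V) : 0 ≤ fdom G := by
  refine Real.sSup_nonneg ?_
  rintro x ⟨a, b, -, -, -, rfl⟩
  positivity

lemma bddBelow (g : ℕ) : BddBelow {x : ℝ | ∃ (V : Type) (_ : Fintype V) (G : SimpleGraph V),
    MinDegreeTwo G ∧ (g : ℕ∞) ≤ G.egirth ∧ x = fdom G} :=
  ⟨0, by rintro x ⟨V, _, G, -, -, rfl⟩; exact fdom_nonneg G⟩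

/-- For every `g` and every `ε > 0` there is a finite graph with minimum degree 2, girth at least
`g` and fractional domatic number at most `5/2 + ε`. Hence the infimum `fdomInf g` is at most `5/2`
for every `g`, and so is the limit `L`. -/
theorem result :
    (∀ (g : ℕ) (ε : ℝ), 0 < ε → ∃ (V : Type) (_ : Fintype V) (G : SimpleGraph V),
      MinDegreeTwo G ∧ (g : ℕ∞) ≤ G.egirth ∧ fdom G ≤ 5 / 2 + ε) ∧
    (∀ g : ℕ, fdomInf g ≤ 5 / 2) ∧
    (∀ L : ℝ, Filter.Tendsto fdomInf Filter.atTop (nhds L) → L ≤ 5 / 2) := by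
  have h1 : ∀ (g : ℕ) (ε : ℝ), 0 < ε → ∃ (V : Type) (_ : Fintype V) (G : SimpleGraph V),
      MinDegreeTwo G ∧ (g : ℕ∞) ≤ G.egirth ∧ fdom G ≤ 5 / 2 + ε := by
    intro g ε hε
    obtain ⟨V, hV, G, h1, h2, h3⟩ := main g ε hε
    refine ⟨V, hV, G, h1, h2, Real.sSup_le ?_ (by linarith)⟩
    rintro x ⟨a, b, hb, -, hφ, rfl⟩
    exact h3 a b hb hφ
  have h2 : ∀ g : ℕ, fdomInf g ≤ 5 / 2 := by
    intro g
    refine le_of_forall_pos_le_add (fun ε hε => ?_)
    obtain ⟨V, hV, G, e1, e2, e3⟩ := h1 g ε hε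
    exact (csInf_le (bddBelow g) ⟨V, hV, G, e1, e2, rfl⟩).trans e3
  exact ⟨h1, h2, fun L hL => le_of_tendsto hL (Filter.Eventually.of_forall h2)⟩

end Pool.Agent.Results.MP_cc2bbb_co.AtMostFiveHalves
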